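import Pool.Agent.Y223.G.Stm10
import Pool.Agent.Y232.G6.Weilg

/-!
# Project G: assembly of the theorem on Weil restrictions, two gradings
-/

set_option autoImplicit false

namespace Pool.Agent.Y500.H

open Pool.Agent.Y223.G
open Pool.Agent.Y232.G6 (exists_inv_mem Ph Ph_hm mem_res prod_inv)

section aux

variable {k K K₂ : Type} [CommRing k] [Field K] [Field K₂] [Algebra k K] [Algebra k K₂]

lemma mono {P : Prop} {ε : LP K →ₐ[k] K₂} {M₀ : Submodule k K} {𝒱 : Set (ValuationSubring K₂)}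
    {n₀ ρ ρ' : ℕ} (h : ρ ≤ ρ') {T : Type} {C : T → Subalgebra k (LP K₂)} {H : T → K}
    (hA : AtlasS P ε M₀ 𝒱 n₀ ρ C H) : AtlasS P ε M₀ 𝒱 n₀ ρ' C H :=
  { hA with
    un := fun t => by
      obtain ⟨r, h1, h2, h3⟩ := hA.un t
      exact ⟨r, h1, h2.trans h, h3⟩ }

lemma hm_prod0 (ε : LP K →ₐ[k] K₂) (x y : K) :
    hm 0 (ε (hm 0 (x * y))) = hm 0 (ε (hm 0 x)) * hm 0 (ε (hm 0 y)) := by
  rw [hm_mul, add_zero, ← map_mul, hm_mul, add_zero]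

theorem iter (hSTEP : S_ASTEP2) {k K K₂ : Type} [CommRing k] [IsDomain k] [IsNoetherianRing k]
    [Field K] [Field K₂] [Algebra k K] [Algebra k K₂] (hinj : Function.Injective (algebraMap k K))
    (ε : LP K →ₐ[k] K₂) (hε : Ext2 ε) (P : Prop) (M₀ : Submodule k K)
    (𝒱 : Set (ValuationSubring K₂)) (h𝒱 : ∀ V ∈ 𝒱, ∀ c : k, algebraMap k K₂ c ∈ V) (n₀ : ℕ)
    (hn₀ : 0 < n₀) (r : ℕ) : ∀ (T : Type) (_ : Finite T) (C : T → Subalgebra k (LP K₂))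
    (H : T → K), AtlasS P ε M₀ 𝒱 n₀ r C H →
    ∃ (T' : Type) (_ : Finite T') (C' : T' → Subalgebra k (LP K₂)) (H' : T' → K),
      AtlasS P ε M₀ 𝒱 n₀ 1 C' H' := by
  induction r with
  | zero => exact fun T hT C H hA => ⟨T, hT, C, H, mono zero_le_one hA⟩
  | succ r ih =>
    intro T hT C H hA
    cases r with
    | zero => exact ⟨T, hT, C, H, hA⟩
    | succ r =>
      obtain ⟨T', hT', C', H', hA'⟩ := hSTEP k K K₂ hinj ε hε P M₀ 𝒱 h𝒱 n₀ hn₀ (r + 1 + 1)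
        (by omega) T C H hA
      exact ih T' hT' C' H' hA'

end aux

lemma gr_GRG {k : Type} (O : Type) {K G Ω : Type} [CommRing k] [CommRing O] [Field K]
    [Group G] [Algebra k O] [Algebra O K] [Algebra k K] [IsScalarTower k O K]
    (ρ : G →* (K ≃ₐ[k] K)) {m : ℕ} (z : Ω → Fin (m + 1) → K) (s : k) {N : Type}
    (𝔔 : N → Ideal (OL O (K := K) s)) (p l : N → ℕ) (τ : N → G) (d : ℕ) (Φ : Ω → K) :
    Gr (GRG O ρ z s 𝔔 p l τ d Φ) := by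
  intro f hf e
  unfold GRG RG at hf ⊢
  rw [Algebra.mem_inf, Algebra.mem_iInf] at hf ⊢
  exact ⟨RR_gr f hf.1 e, fun i => RR_gr f (hf.2 i) e⟩

/-- **Weil restrictions, wild inertia of prime order.** -/
theorem t_WEILE : S_EXT2 → S_RES2 → S_ATLAS2 → S_ASTEP2 → S_DOWN → S_MODEL → S_HASM → S_RAMG2 →
    S_GCHE → S_GLAE → S_GVAE → S_GFRE → S_GMOE → S_WEILE := by
  intro hEXT hRES hAT2 hSTEP hDOWN hMODEL hHASM hRAMG hGCHE hGLAE hGVAE hGFRE hGMOE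
    k O M Y K G Ω _ _ _ _ _ _ _ _ _ _ _ _ _ _ _ _ _ _ _ _ ι ρ T m z hyp M₀ hM₀ P hP
  classical
  have hinjk : Function.Injective (algebraMap k K) := hyp.injk
  have hιk : ∀ c : k, ι (algebraMap k Y c) = algebraMap k K c := fun c => ι.commutes c
  have hinjY : Function.Injective (algebraMap k Y) := by
    intro a b hab
    apply hinjk
    rw [← hιk, ← hιk, hab]
  obtain ⟨Y₂, K₂, _, _, _, _, ι₂, εY, ε, ρ₂, hE⟩ := hEXT k Y K G ι ρ hyp.fixK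
  obtain ⟨β, _, _, o, π, ho, hπ0, hspan, hππ, hb⟩ := hRAMG k O K G ρ T hyp.toGE
  choose dd Tb N hN 𝔔 p l τ π' hπ' hL hg hor using hb
  obtain ⟨d, S, hd, hSfin, hS, hval⟩ :=
    hGVAE k O M Y Y₂ K K₂ G Ω ι ι₂ εY ε ρ ρ₂ hE T m z hyp
  have hp : ∀ b i, 0 < p b i := fun b i => ((hL b).ty i).1.pp.pos
  have hoK : ∀ b, algebraMap k K (o b) ≠ 0 := by
    intro b h
    apply ho b
    apply hinjk
    rw [h, map_zero]
  have hfinS : Finite S := hSfin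
  have hn₀ : 0 < Nat.card G := Nat.card_pos
  -- the functions
  have hh : ∀ a : S × β, ∃ y : Y, ι y = (∏ ω, (a.1 : Ω → K) ω) * algebraMap k K (o a.2) := by
    intro a
    apply (hyp.fixK _).1
    intro g
    have e := prod_inv ρ (a.1 : Ω → K) (hS a.1 a.1.2).eqv g
    rw [map_mul, e, (ρ g).commutes]
  choose h hιh using hh
  have hprod0 : ∀ a : S × β, (∏ ω, (a.1 : Ω → K) ω) ≠ 0 := fun a =>
    Finset.prod_ne_zero_iff.2 fun ω _ => (hS a.1 a.1.2).ne ω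
  have hh0 : ∀ a, h a ≠ 0 := by
    intro a h0
    have h1 := hιh a
    rw [h0, map_zero] at h1
    exact mul_ne_zero (hprod0 a) (hoK a.2) h1.symm
  have hquot : ∀ a a' : S × β, ι (h a' / h a) =
      (∏ ω, ((a'.1 : Ω → K) ω / (a.1 : Ω → K) ω)) *
        (algebraMap k K (o a'.2) / algebraMap k K (o a.2)) := by
    intro a a'
    rw [map_div₀, hιh, hιh, mul_div_mul_comm, ← Finset.prod_div_distrib]
  -- the charts
  obtain ⟨R, hR⟩ : ∃ R : S × β → Subalgebra k (LP Y₂), R = fun a =>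
    res ι₂ (GRE O ε ρ z (o a.2) (𝔔 a.2) (p a.2) (l a.2) (τ a.2) (π a.2) d (a.1 : Ω → K)) :=
    ⟨_, rfl⟩
  have hRπ : ∀ a : S × β, R a = res ι₂ (GRE O ε ρ z (o a.2) (𝔔 a.2) (p a.2) (l a.2) (τ a.2)
      (π' a.2 : K) d (a.1 : Ω → K)) := by
    intro a
    rw [hR, hπ']
  have hfr := fun a : S × β => hGFRE k O M Y Y₂ K K₂ G Ω ι ι₂ εY ε ρ ρ₂ hE T m z hyp (o a.2)
    (dd a.2) (Tb a.2) (N a.2) (𝔔 a.2) (p a.2) (l a.2) (τ a.2) (π' a.2) (ho a.2) (hL a.2) d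
    (a.1 : Ω → K) hd (hS a.1 a.1.2) (R a) (hRπ a)
  have hmemR : ∀ (a a' : S × β), hm 0 (εY (hm 0 (h a' / h a))) ∈ R a ↔
      hm 0 (ε (hm 0 (∏ ω, ((a'.1 : Ω → K) ω / (a.1 : Ω → K) ω)))) *
        hm 0 (ε (hm 0 (algebraMap k K (o a'.2) / algebraMap k K (o a.2)))) ∈
      GRE O ε ρ z (o a.2) (𝔔 a.2) (p a.2) (l a.2) (τ a.2) (π a.2) d (a.1 : Ω → K) := by
    intro a a'
    rw [hR, mem_res, Ph_hm, hE.com, hquot, hm_prod0]
  -- gluing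
  have hGL := fun a : S × β => hGLAE k O K K₂ G Ω ε hE.eK ρ m z (o a.2) (hoK a.2) (N a.2)
    (𝔔 a.2) (p a.2) (l a.2) (τ a.2) (hp a.2) (π a.2) (hπ0 a.2) d (a.1 : Ω → K)
    (hS a.1 a.1.2)
  have hbase : ∀ (a : S × β) (b' : β),
      hm 0 (ε (hm 0 (algebraMap k K (o b') / algebraMap k K (o a.2)))) ∈
        GRE O ε ρ z (o a.2) (𝔔 a.2) (p a.2) (l a.2) (τ a.2) (π a.2) d (a.1 : Ω → K) ∧
      ∀ f ∈ GRE O ε ρ z (o b') (𝔔 b') (p b') (l b') (τ b') (π b') d (a.1 : Ω → K), ∃ n : ℕ,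
        hm 0 (ε (hm 0 (algebraMap k K (o b') / algebraMap k K (o a.2)))) ^ n * f ∈
          GRE O ε ρ z (o a.2) (𝔔 a.2) (p a.2) (l a.2) (τ a.2) (π a.2) d (a.1 : Ω → K) := by
    intro a b'
    by_cases hbb : b' = a.2
    · subst hbb
      rw [div_self (hoK a.2), hm_one, map_one, hm_one]
      refine ⟨Subalgebra.one_mem _, fun f hf => ⟨0, ?_⟩⟩
      rw [pow_zero, one_mul]
      exact hf
    · exact (hGL a).2 (o b') (hoK b') (N b') (𝔔 b') (p b') (l b') (τ b') (π b') (hπ0 b')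
        (hor a.2 b' hbb) (hππ a.2 b')
  obtain ⟨𝒱, h𝒱⟩ : ∃ 𝒱 : Set (ValuationSubring Y₂), 𝒱 = {V | (∀ c : k, algebraMap k Y₂ c ∈ V) ∧
    ∃ a, ∀ x, hm 0 x ∈ R a → x ∈ V} := ⟨_, rfl⟩
  have h𝒱k : ∀ V ∈ 𝒱, ∀ c : k, algebraMap k Y₂ c ∈ V := by
    rw [h𝒱]
    exact fun V hV => hV.1
  -- the atlas
  obtain ⟨r, T', hT', C, H, hAt⟩ := hAT2 k Y Y₂ hinjY εY hE.eY P M₀ 𝒱 h𝒱k (Nat.card G) hn₀
    (S × β) R h
    (fun a => by
      rw [hRπ]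
      exact hGCHE k O M Y Y₂ K K₂ G Ω ι ι₂ εY ε ρ ρ₂ hE T m z hyp (o a.2) (dd a.2) (Tb a.2)
        (N a.2) (𝔔 a.2) (p a.2) (l a.2) (τ a.2) (π' a.2) (ho a.2) (hL a.2) (hg a.2) d
        (a.1 : Ω → K) hd (hS a.1 a.1.2))
    (fun a => by
      rw [hR]
      exact (hRES k Y Y₂ K K₂ G ι ι₂ εY ε ρ ρ₂ hE hyp.fixK _
        (gr_GRG O ρ z (o a.2) (𝔔 a.2) (p a.2) (l a.2) (τ a.2) d (a.1 : Ω → K)) (π a.2)
        (hπ0 a.2)).1)
    hh0 (fun a => (hfr a).2.2.2.1) (fun a => (hfr a).2.2.2.2)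
    (fun a a' => by
      rw [hmemR]
      exact Subalgebra.mul_mem _ ((hGL a).1 a'.1 (hS a'.1 a'.1.2) _ ⟨inferInstance, rfl⟩).1
        (hbase a a'.2).1)
    (fun a a' f hf => by
      have hf' : Ph ι₂ f ∈ GRE O ε ρ z (o a'.2) (𝔔 a'.2) (p a'.2) (l a'.2) (τ a'.2) (π a'.2) d
          (a'.1 : Ω → K) := by
        rw [hR] at hf
        exact mem_res.1 hf
      obtain ⟨n, hn⟩ := ((hGL (a.1, a'.2)).1 a'.1 (hS a'.1 a'.1.2) _ ⟨inferInstance, rfl⟩).2 _ hf'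
      have h1 := ((hGL a).1 a'.1 (hS a'.1 a'.1.2) _ ⟨inferInstance, rfl⟩).1
      obtain ⟨h2, h3⟩ := hbase a a'.2
      obtain ⟨n', hn'⟩ := h3 _ hn
      refine ⟨n + n', ?_⟩
      rw [hR, mem_res, map_mul, map_pow, Ph_hm, hE.com, hquot, hm_prod0]
      have h5 := Subalgebra.mul_mem _ (Subalgebra.mul_mem _ (Subalgebra.pow_mem _ h1 n')
        (Subalgebra.pow_mem _ h2 n)) hn'
      convert h5 using 1
      ring)
    (by
      rw [h𝒱]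
      exact fun V hV => hV.2)
    (fun a => (hfr a).1) (fun _ a => (hfr a).2.1) (fun _ a => (hfr a).2.2.1)
    (fun hPP => ⟨d, hd, fun a => by
      rw [hRπ]
      exact hGMOE k O M Y Y₂ K K₂ G Ω ι ι₂ εY ε ρ ρ₂ hE T m z hyp M₀ (hP hPP) (o a.2) (N a.2)
        (𝔔 a.2) (p a.2) (l a.2) (τ a.2) (π' a.2) (hL a.2).p0 (ho a.2) (hp a.2) d (a.1 : Ω → K) hd
        (hS a.1 a.1.2) (h a) (hιh a)⟩)
  obtain ⟨T1, hT1, C1, H1, hA1⟩ := iter hSTEP hinjY εY hE.eY P M₀ 𝒱 h𝒱k (Nat.card G) hn₀ r T' hT'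
    C H hAt
  obtain ⟨D, hD⟩ := hDOWN k Y Y₂ hinjY εY hE.eY P M₀ 𝒱
    (by
      intro V hV
      obtain ⟨Φ, hΦ, hΦV⟩ := hval V hV
      obtain ⟨b, hbV⟩ := exists_inv_mem o hspan V hV
      obtain ⟨V₂, h1, h2, h3⟩ := hΦV (o b) (ho b) hbV (N b) (𝔔 b) (p b) (l b) (τ b) (π b) (hπ0 b)
      refine ⟨V₂, ?_, h3⟩
      rw [h𝒱]
      refine ⟨h1, (⟨Φ, hΦ⟩, b), fun x hx => h2 x ?_⟩
      rw [hR] at hx
      exact hx)
    (Nat.card G) hn₀ T1 C1 H1 hA1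
  obtain ⟨I, _, zz, J, hmod⟩ := hMODEL k Y hinjY P M₀ hM₀ ⊤ (fun _ _ _ => Subfield.mem_top _)
    (Nat.card G) T1 D H1 hD
  have htop : (⊤ : Subfield Y) = (algebraMap Y Y).fieldRange := by
    ext x
    constructor
    · exact fun _ => ⟨x, rfl⟩
    · exact fun _ => Subfield.mem_top _
  rw [htop] at hmod
  exact hHASM k Y Y hinjY P M₀ I zz J hmod

end Pool.Agent.Y500.H
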